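import Mathlib
import Pool.Agent.V1199.StepIso

/-!
MP_68c038: every step-isometry of a Banach space is continuous.
-/

namespace Pool.Agent.Results.MP_68c038_an.Continuous

/-- `T : X → X` is a step-isometry: a bijection with `⌊‖x - y‖⌋ = ⌊‖T x - T y‖⌋` for all
`x, y`. -/
def IsStepIsometry {X : Type*} [NormedAddCommGroup X] (T : X → X) : Prop :=
  Function.Bijective T ∧ ∀ x y : X, ⌊‖x - y‖⌋ = ⌊‖T x - T y‖⌋

/-- Every step-isometry of a real Banach space (every complex Banach space is one) is norm
continuous. -/
theorem result {X : Type*} [NormedAddCommGroup X] [NormedSpace ℝ X] [CompleteSpace X]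
    (T : X → X) (hT : IsStepIsometry T) : Continuous T :=
  StepIso.continuous_of_floor (T := Equiv.ofBijective T hT.1) hT.2

end Pool.Agent.Results.MP_68c038_an.Continuous
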